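import Pool.Agent.TH962.DL.Cert
import Pool.Agent.TH50.DQ.ArchDefs

/-!
# The two certificates for `1, Li₁(1/Q), Li₂(1/Q)`
-/

set_option autoImplicit false

open Real Pool.Agent.H337R2

namespace Pool.Agent.TH50.DQ

open Pool.Agent.TH844.DL (lst chkV chkV_spec Ph)

/-- the terms -/
def lC : List (ℤ × ℤ) :=
  [(3880, 0), (-3310, 10), (-288, 100), (-140, 290), (-78, 650), (-54, 1300), (-28, 2070),
    (-26, 3000), (-18, 4660), (-22, 8020), (-16, 11270), (200, -1000), (-100, -5000)]

/-- the break points for `|Q| ≥ 3` -/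
def brk3 : List ℤ :=
  [10, 94, 100, 197, 290, 437, 616, 650, 842, 1064, 1295, 1300, 1510, 1729, 1954, 2070, 2257,
    2442, 2627, 2806, 2963, 3000, 3105, 3199, 3287, 3371, 3454, 3537, 3622, 3710, 3802, 3898,
    3998, 4102, 4209, 4317, 4422, 4521, 4607, 4660, 4706, 4745, 4779, 4809, 4836, 4861, 4885,
    4907, 4929, 4950, 4971, 4991, 5012, 5033, 5054, 5076, 5098, 5121, 5146, 5172, 5200, 5230,
    5262, 5297, 5335, 5377, 5424, 5476, 5534, 5600, 5674, 5758, 5853, 5961, 6084, 6222, 6377,
    6550, 6740, 6945, 7161, 7382, 7599, 7798, 7961, 8020, 8107, 8177, 8236, 8286, 8330, 8369,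
    8404, 8436, 8465, 8492, 8517, 8541, 8564, 8586, 8607, 8627, 8647, 8666, 8685, 8704, 8723,
    8742, 8761, 8780, 8799, 8818, 8838, 8858, 8879, 8900, 8922, 8945, 8969, 8994, 9020, 9048,
    9077, 9108, 9141, 9176, 9214, 9255, 9299, 9347, 9400, 9458, 9521, 9591, 9668, 9753, 9847,
    9951, 10066, 10193, 10332, 10483, 10644, 10812, 10982, 11144, 11270, 11375, 11475, 11576,
    11681, 11796, 11926, 12077, 12258, 12481, 12763, 13126, 13602, 14232, 15070, 16187, 17674,
    19647, 22258, 24000]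

/-- the break points for `|Q| ≥ 4` -/
def brk4 : List ℤ :=
  [10, 15, 19, 24, 30, 38, 51, 72, 98, 100, 113, 126, 142, 165, 197, 238, 279, 290, 307, 321,
    334, 347, 361, 378, 400, 429, 467, 515, 570, 623, 650, 672, 690, 706, 721, 736, 752, 769,
    789, 813, 843, 881, 929, 988, 1059, 1138, 1218, 1285, 1300, 1333, 1359, 1382, 1402, 1420,
    1437, 1453, 1469, 1486, 1503, 1521, 1540, 1561, 1584, 1610, 1639, 1672, 1710, 1753, 1801,
    1853, 1908, 1964, 2017, 2060, 2070, 2096, 2118, 2138, 2156, 2173, 2190, 2207, 2224, 2241,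
    2259, 2278, 2299, 2321, 2346, 2373, 2403, 2437, 2476, 2520, 2569, 2624, 2684, 2749, 2817,
    2885, 2948, 2997, 3000, 3032, 3060, 3086, 3111, 3135, 3159, 3184, 3210, 3238, 3269, 3304,
    3343, 3389, 3443, 3507, 3584, 3678, 3792, 3930, 4095, 4287, 4502, 4660, 4873, 5118, 5413,
    5772, 6208, 6731, 7338, 7984, 8020, 8671, 9422, 10310, 11270, 12402, 13836, 15722, 18236,
    21612, 24000]

theorem chk_C3 : chkV 1000 lC (-411000000000000000) 109860000000000 0 brk3 = true := by
  decide +kernel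

theorem chk_C4 : chkV 1000 lC (-513000000000000000) 138620000000000 0 brk4 = true := by
  decide +kernel

theorem lst_C3 : lst 0 brk3 = 24000 := by
  decide +kernel

theorem lst_C4 : lst 0 brk4 = 24000 := by
  decide +kernel

theorem EF_C (v : ℝ) : EF 100 1000 lC v = 2 * UU v + Ph v := by
  unfold EF lC UU Ph
  simp only [Finset.sum_range_succ, Finset.sum_range_zero, dd, kk, List.map_cons, List.map_nil,
    List.sum_cons, List.sum_nil, List.getD_cons_zero, List.getD_cons_succ]
  norm_num
  ring_nf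

theorem A_cert3 : S_cert3 := by
  intro v h0 h1
  rw [← EF_C]
  have h := chkV_spec (Dc := 100) (M := 1000) (by norm_num) (by norm_num) (by norm_num)
    (by norm_num) brk3 0 (by simp [brk3]) chk_C3 (v * 1000) (by push_cast; linarith)
    (by rw [lst_C3]; push_cast; linarith)
  have e : v * 1000 / ((1000 : ℕ) : ℝ) = v := by push_cast; field_simp
  rw [e] at h
  refine h.trans (le_of_eq ?_)
  push_cast
  ring

theorem A_cert4 : S_cert4 := by
  intro v h0 h1
  rw [← EF_C]
  have h := chkV_spec (Dc := 100) (M := 1000) (by norm_num) (by norm_num) (by norm_num)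
    (by norm_num) brk4 0 (by simp [brk4]) chk_C4 (v * 1000) (by push_cast; linarith)
    (by rw [lst_C4]; push_cast; linarith)
  have e : v * 1000 / ((1000 : ℕ) : ℝ) = v := by push_cast; field_simp
  rw [e] at h
  refine h.trans (le_of_eq ?_)
  push_cast
  ring

end Pool.Agent.TH50.DQ
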