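import Pool.Agent.TH962.DL.Tail
import Pool.Agent.TH50.DQ.ArchDefs

/-!
# The tail and the energy constant for `1, Li₁(1/Q), Li₂(1/Q)`
-/

set_option autoImplicit false

open Real Pool.Agent.H337R2

namespace Pool.Agent.TH50.DQ

open Pool.Agent.TH844.DL (Ph GG brick_le Psi_sub_le le_Psi_sub gA gA_spec sm sm_eq)

theorem log24 : Real.log 24 ≤ 3.2158 := by
  have h1 : Real.log 24 = 5 * Real.log 2 + Real.log (3 / 4) := by
    have : (24 : ℝ) = 2 ^ 5 * (3 / 4) := by norm_num
    rw [this, Real.log_mul (by norm_num) (by norm_num), Real.log_pow]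
    norm_num
  have h2 : Real.log (3 / 4) ≤ 3 / 4 - 1 := Real.log_le_sub_one_of_pos (by norm_num)
  have h3 := Real.log_two_lt_d9
  rw [h1]
  linarith

theorem kk_le (i : ℕ) : kk i ≤ 1127 := by
  rcases Nat.lt_or_ge i 11 with h | h
  · interval_cases i <;> decide
  · unfold kk
    rw [List.getD_eq_default _ _ (by simpa using h)]
    norm_num

theorem A_tail : S_tail := by
  intro v hv
  have hv0 : 0 < v := by linarith
  have hlog0 : 0 ≤ Real.log v := Real.log_nonneg (by linarith)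
  have hU : UU v ≤ 4 * Real.log v := by
    have h : ∀ i ∈ Finset.range 10, (dd i : ℝ) / 100 * (Psi (v - kk i / 100) - Psi (v - kk (i + 1) / 100)) ≤
        (dd i : ℝ) / 100 * (((kk (i + 1) : ℝ) / 100 - kk i / 100) * Real.log v) := by
      intro i hi
      apply mul_le_mul_of_nonneg_left _ (by positivity)
      have hi' : i < 10 := Finset.mem_range.1 hi
      have h1 : kk i ≤ kk (i + 1) := by
        interval_cases i <;> decide
      have h2 : kk (i + 1) ≤ 1127 := kk_le _
      have h1' : (kk i : ℝ) ≤ kk (i + 1) := by exact_mod_cast h1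
      have h2' : (kk (i + 1) : ℝ) ≤ 1127 := by exact_mod_cast h2
      exact brick_le (by linarith) (by positivity) (by linarith)
    unfold UU
    refine (Finset.sum_le_sum h).trans (le_of_eq ?_)
    simp only [Finset.sum_range_succ, Finset.sum_range_zero, dd, kk,
      List.getD_cons_zero, List.getD_cons_succ]
    push_cast
    ring
  have hP : Ph v ≤ -3 * Real.log v := by
    have h1 := Psi_sub_le (x := v + 1) (y := v) hv0 (by linarith)
    have h2 := le_Psi_sub (x := v + 5) (y := v + 1) (by linarith) (by linarith)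
    have h3 : Real.log v ≤ Real.log (v + 1) := Real.log_le_log hv0 (by linarith)
    have e1 : v + 1 - v = 1 := by ring
    have e2 : v + 5 - (v + 1) = 4 := by ring
    rw [e1] at h1
    rw [e2] at h2
    unfold Ph
    linarith
  have hl : Real.log v ≤ Real.log 24 + (v - 24) / 24 := by
    have h := Real.log_le_sub_one_of_pos (show 0 < v / 24 by positivity)
    rw [Real.log_div hv0.ne' (by norm_num)] at h
    have : v / 24 - 1 = (v - 24) / 24 := by ring
    linarith
  have h24 := log24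
  have : 2 * UU v + Ph v ≤ 5 * Real.log v := by linarith
  have h5 : 5 * Real.log v ≤ 5 * (3.2158 + (v - 24) / 24) := by linarith
  norm_num at *
  linarith

/-! ### The energy constant -/

/-- lower bound for the `(i, j)` term -/
def qT (i j : ℕ) : ℤ :=
  ((dd i * dd j : ℕ) : ℤ) * (gA ((kk (i + 1) : ℤ) - kk j) - gA ((kk i : ℤ) - kk j) -
    gA ((kk (i + 1) : ℤ) - kk (j + 1)) + gA ((kk i : ℤ) - kk (j + 1)) -
    40000 * (((kk (i + 1) : ℤ) - kk j) ^ 2 + ((kk i : ℤ) - kk j) ^ 2 +
      ((kk (i + 1) : ℤ) - kk (j + 1)) ^ 2 + ((kk i : ℤ) - kk (j + 1)) ^ 2))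

theorem qT_check : 1560000000000000000000 ≤ sm (fun i => sm (fun j => qT i j) 10) 10 := by
  decide +kernel

theorem qT_spec (i j : ℕ) : (qT i j : ℝ) ≤ 2 * 10 ^ 20 * (((dd i : ℝ) / 100) * ((dd j : ℝ) / 100) *
    (GG ((kk (i + 1) : ℝ) / 100 - kk j / 100) - GG ((kk i : ℝ) / 100 - kk j / 100) -
      GG ((kk (i + 1) : ℝ) / 100 - kk (j + 1) / 100) + GG ((kk i : ℝ) / 100 - kk (j + 1) / 100))) := by
  have key : ∀ a b : ℕ, |2 * 10 ^ 16 * GG ((kk a : ℝ) / 100 - kk b / 100) -
      (gA ((kk a : ℤ) - kk b) : ℝ)| ≤ 40000 * ((kk a : ℝ) - kk b) ^ 2 := by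
    intro a b
    have h1 := kk_le a
    have h2 := kk_le b
    have := gA_spec ((kk a : ℤ) - kk b) (by omega)
    have e : (((kk a : ℤ) - kk b : ℤ) : ℝ) / 100 = (kk a : ℝ) / 100 - kk b / 100 := by
      push_cast; ring
    rw [e] at this
    push_cast at this ⊢
    exact this
  have k1 := abs_le.1 (key (i + 1) j)
  have k2 := abs_le.1 (key i j)
  have k3 := abs_le.1 (key (i + 1) (j + 1))
  have k4 := abs_le.1 (key i (j + 1))
  set g1 := GG ((kk (i + 1) : ℝ) / 100 - kk j / 100)
  set g2 := GG ((kk i : ℝ) / 100 - kk j / 100)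
  set g3 := GG ((kk (i + 1) : ℝ) / 100 - kk (j + 1) / 100)
  set g4 := GG ((kk i : ℝ) / 100 - kk (j + 1) / 100)
  have hd : (0 : ℝ) ≤ (dd i : ℝ) * dd j := by positivity
  have e1 : 2 * 10 ^ 20 * (((dd i : ℝ) / 100) * ((dd j : ℝ) / 100) * (g1 - g2 - g3 + g4)) =
      ((dd i : ℝ) * dd j) * (2 * 10 ^ 16 * g1 - 2 * 10 ^ 16 * g2 - 2 * 10 ^ 16 * g3 +
        2 * 10 ^ 16 * g4) := by ring
  rw [e1]
  unfold qT
  push_cast
  apply mul_le_mul_of_nonneg_left _ hd
  linarith [k1.1, k2.2, k3.2, k4.1]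

theorem A_QQ : S_QQ := by
  have h : (1560000000000000000000 : ℝ) ≤ 2 * 10 ^ 20 * QQ := by
    have h1 : (1560000000000000000000 : ℝ) ≤ ((sm (fun i => sm (fun j => qT i j) 10) 10 : ℤ) : ℝ) := by
      exact_mod_cast qT_check
    refine h1.trans ?_
    rw [sm_eq]
    simp only [sm_eq]
    unfold QQ
    rw [Finset.mul_sum]
    push_cast
    apply Finset.sum_le_sum
    intro i _
    rw [Finset.mul_sum]
    apply Finset.sum_le_sum
    intro j _
    exact qT_spec i j
  show 7.8 ≤ QQ
  linarith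

end Pool.Agent.TH50.DQ
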